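import Mathlib
import Pool.Agent.H819.Pow

set_option autoImplicit false

open Filter

/-- Let `p ≠ q` be primes. The `k`-th base-`q` digit (from the right, `k = 0, 1, …`) of `p^n` is
`p^n / q^k % q`. There is `c > 0` such that, for all large `N`, the number of pairs `(n, k)`,
`0 ≤ n, k < N`, for which the `k`-th and the `(k+1)`-st digits of `p^n` are different is at least
`c N^s` with `s = log 3 / log 2 > 1.58`. -/
theorem Pool.Agent.Results.MP_b08cb4_nt.DigitChangesOfPowers.result :
    ∀ p q : ℕ, p.Prime → q.Prime → p ≠ q →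
      ∃ c : ℝ, 0 < c ∧ ∀ᶠ N : ℕ in atTop, c * (N : ℝ) ^ (Real.log 3 / Real.log 2) ≤
        ((∑ n ∈ Finset.range N, ((Finset.range N).filter (fun k : ℕ =>
          p ^ n / q ^ k % q ≠ p ^ n / q ^ (k + 1) % q)).card : ℕ) : ℝ) :=
  fun _ _ hp hq hne =>
    Pool.Agent.H819.pow_changes hq.two_le hp.two_le ((Nat.coprime_primes hq hp).mpr hne.symm)
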