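import Mathlib
import Pool.Agent.H547R3.Dig.Merge

set_option autoImplicit false

namespace Pool.Agent.Results.MP_b08cb4_nt.DistinctBlocks

/-- The digit of `m` in base `q` at position `i` (weight `q ^ i`). -/
def digit (q m i : ℕ) : ℕ := m / q ^ i % q

/-- The number `∑ i < ℓ, (digit q m (a + i)) * q ^ i` formed by the block of the `ℓ` digits of `m` in
the positions `a, a + 1, ..., a + ℓ - 1`. -/
def block (q m a ℓ : ℕ) : ℕ := ∑ i ∈ Finset.range ℓ, digit q m (a + i) * q ^ i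

lemma block_eq (q m a ℓ : ℕ) : block q m a ℓ = m / q ^ a % q ^ ℓ := by
  unfold block digit
  induction ℓ with
  | zero => simp [Nat.mod_one]
  | succ ℓ ih =>
    rw [Finset.sum_range_succ, ih, Nat.mod_pow_succ, Nat.div_div_eq_div_mul, ← pow_add]
    ring

lemma block_spec (q m a ℓ : ℕ) (hq : 0 < q) : ∃ H B : ℕ, B < q ^ a ∧
    m = q ^ a * (q ^ ℓ * H + block q m a ℓ) + B := by
  refine ⟨m / q ^ a / q ^ ℓ, m % q ^ a, Nat.mod_lt _ (by positivity), ?_⟩
  rw [block_eq, Nat.div_add_mod, Nat.div_add_mod]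

open Pool.Agent.H547R3.Dig in
/-- Let `p ≠ q` be primes. For all `D` and `δ > 0` there is `ε > 0` such that for all large `n`: if
`W_1, ..., W_D` are the blocks of `ℓ ≥ δ n` consecutive base `q` digits of `p ^ n` starting in the
positions `a_1, ..., a_D`, and `t_j` are integers with `|t_j| ≤ e ^ (ε n)` and
`∑ t_j q ^ (-a_j) ≠ 0`, then `∑ t_j W_j` has distance greater than `e ^ (-δ n) q ^ ℓ` from all the
multiples of `q ^ ℓ`. (For `D = 2`, `t = (1, -1)` this says that no block of `ℓ ≥ δ n` digits occurs in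
two different positions, see `distinct_blocks` below.) -/
theorem result (p q : ℕ) (hp : p.Prime) (hq : q.Prime) (hpq : p ≠ q) (D : ℕ) (δ : ℝ) (hδ : 0 < δ) :
    ∃ ε : ℝ, 0 < ε ∧ ∃ n0 : ℕ, ∀ n : ℕ, n0 ≤ n → ∀ (ℓ : ℕ) (a : Fin D → ℕ) (lam : Fin D → ℤ),
      δ * n ≤ ℓ → (∀ j, a j + ℓ ≤ Nat.log q (p ^ n) + 1) →
      (∀ j, |(lam j : ℝ)| ≤ Real.exp (ε * n)) → ∑ j, (lam j : ℝ) / (q : ℝ) ^ a j ≠ 0 →
      ∀ z : ℤ, (q : ℝ) ^ ℓ * Real.exp (-(δ * n)) <
        |∑ j, (lam j : ℝ) * (block q (p ^ n) (a j) ℓ : ℝ) - z * (q : ℝ) ^ ℓ| := by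
  have hpF : Fact p.Prime := ⟨hp⟩
  have hqF : Fact q.Prime := ⟨hq⟩
  have hp0 : (0 : ℝ) < p := by exact_mod_cast hp.pos
  have hq0 : (0 : ℝ) < q := by exact_mod_cast hq.pos
  have hq1 : (1 : ℝ) ≤ q := by exact_mod_cast hq.one_le
  have hlogp : 0 < Real.log p := Real.log_pos (by exact_mod_cast hp.one_lt)
  have hlogq : 1 / 2 ≤ Real.log q := by
    have h8 : Real.log 2 ≤ Real.log q := Real.log_le_log (by norm_num) (by exact_mod_cast hq.two_le)
    have := Real.log_two_gt_d9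
    linarith
  set δ' : ℝ := min (δ / 8) (min 1 (1 / (2 * Real.log p))) with hδ'
  have hδ'0 : 0 < δ' := by
    rw [hδ']; apply lt_min (by positivity); apply lt_min one_pos; positivity
  have hδ'1 : δ' ≤ δ / 8 := min_le_left _ _
  have hδ'2 : δ' ≤ 1 := (min_le_right _ _).trans (min_le_left _ _)
  have hδ'3 : δ' ≤ 1 / (2 * Real.log p) := (min_le_right _ _).trans (min_le_right _ _)
  obtain ⟨ε0, hε0, N0, hind⟩ := indep (p := p) (q := q) hpq D δ' hδ'0
  refine ⟨min ε0 (δ / 8), lt_min hε0 (by positivity),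
    max N0 (⌈8 * ((q : ℝ) * (D + 1)) / δ⌉₊ + 1), ?_⟩
  intro n hn ℓ a lam hℓ ha hlam hne z
  by_contra hcon
  rw [not_lt] at hcon
  have hnR : (0 : ℝ) ≤ n := Nat.cast_nonneg _
  have hn1 : 8 * ((q : ℝ) * (D + 1)) / δ ≤ n := by
    refine le_trans (Nat.le_ceil _) ?_
    exact_mod_cast le_trans (le_trans (Nat.le_succ _) (le_max_right _ _)) hn
  rw [div_le_iff₀ hδ] at hn1
  have hD0 : (0 : ℝ) ≤ D := Nat.cast_nonneg _
  have hn8 : 8 ≤ n * δ := by nlinarith
  have hℓ1 : 1 ≤ ℓ := by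
    have h1 : (1 : ℝ) ≤ ℓ := by nlinarith
    exact_mod_cast h1
  -- the case `D = 0`
  rcases Nat.eq_zero_or_pos D with hD | hD
  · subst hD
    apply hne
    simp
  obtain ⟨j0, -, hj0⟩ := Finset.exists_max_image Finset.univ a ⟨⟨0, hD⟩, Finset.mem_univ _⟩
  obtain ⟨b, hb⟩ : ∃ b, b = a j0 := ⟨_, rfl⟩
  have hab : ∀ j, a j ≤ b := fun j => hb ▸ hj0 j (Finset.mem_univ j)
  set K : ℕ := b + (ℓ - 1) with hK
  have hqKn : q ^ K ≤ p ^ n := by
    have h1 := ha j0
    rw [← hb] at h1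
    have h2 : K ≤ Nat.log q (p ^ n) := by omega
    exact (Nat.pow_le_pow_right hq.pos h2).trans (Nat.pow_log_le_self q (pow_ne_zero _ hp.ne_zero))
  have hqKnR : (q : ℝ) ^ K ≤ (p : ℝ) ^ n := by exact_mod_cast hqKn
  have hKn : (K : ℝ) ≤ 2 * Real.log p * n := by
    have h1 := Real.log_le_log (by positivity) hqKnR
    rw [Real.log_pow, Real.log_pow] at h1
    have h2 : (0 : ℝ) ≤ K := Nat.cast_nonneg _
    nlinarith
  have hδK : δ' * K ≤ n := by
    calc δ' * K ≤ 1 / (2 * Real.log p) * (2 * Real.log p * n) :=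
          mul_le_mul hδ'3 hKn (Nat.cast_nonneg _) (by positivity)
      _ = n := by field_simp
  have hδn : δ' * n ≤ n := by nlinarith
  set β : Fin D → ℕ := fun j => b - a j with hβ
  have hβK : ∀ j, (β j : ℝ) + δ' * n ≤ K := by
    intro j
    have h1 : β j ≤ b := Nat.sub_le _ _
    have h2 : (β j : ℝ) ≤ b := by exact_mod_cast h1
    have h3 : (K : ℝ) = b + (ℓ - 1) := by
      rw [hK, Nat.cast_add, Nat.cast_sub hℓ1, Nat.cast_one]
    rw [h3]
    nlinarith
  -- the identity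
  choose H B hB hHB using fun j => block_spec q (p ^ n) (a j) ℓ hq.pos
  set S : ℤ := ∑ j, lam j * (block q (p ^ n) (a j) ℓ : ℤ) - z * (q : ℤ) ^ ℓ with hS
  set E : ℤ := ∑ j, lam j * ((q : ℤ) ^ β j * (B j : ℤ)) with hE
  set x : ℤ := -((q : ℤ) ^ b * S + E) with hx
  have hterm : ∀ j, (p : ℤ) ^ n * (lam j * (q : ℤ) ^ β j) =
      (q : ℤ) ^ (b + ℓ) * (lam j * (H j : ℤ)) + (q : ℤ) ^ b * (lam j * (block q (p ^ n) (a j) ℓ : ℤ)) +
        lam j * ((q : ℤ) ^ β j * (B j : ℤ)) := by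
    intro j
    have h1 : (p : ℤ) ^ n = (q : ℤ) ^ a j * ((q : ℤ) ^ ℓ * (H j : ℤ) +
        (block q (p ^ n) (a j) ℓ : ℤ)) + (B j : ℤ) := by exact_mod_cast hHB j
    have h2 : (q : ℤ) ^ b = (q : ℤ) ^ β j * (q : ℤ) ^ a j := by
      rw [← pow_add, Nat.sub_add_cancel (hab j)]
    rw [h1, pow_add, h2]
    ring
  have hident : x + (p : ℤ) ^ n * ∑ j, lam j * (q : ℤ) ^ β j =
      (q : ℤ) ^ (b + ℓ) * (∑ j, lam j * (H j : ℤ) + z) := by
    rw [Finset.mul_sum, Finset.sum_congr rfl (fun j _ => hterm j), Finset.sum_add_distrib,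
      Finset.sum_add_distrib, ← Finset.mul_sum, ← Finset.mul_sum, hx, hS, hE, pow_add]
    ring
  have hdvd : (q : ℤ) ^ K ∣ x + (p : ℤ) ^ n * ∑ j, lam j * (q : ℤ) ^ β j := by
    rw [hident]
    exact (pow_dvd_pow _ (by omega)).mul_right _
  -- the size of `x`
  have hexp8 : ∀ t : ℝ, 0 ≤ t → Real.exp (-(t * n)) ≤ 1 := fun t ht => by
    rw [Real.exp_le_one_iff]
    have : 0 ≤ t * n := by positivity
    linarith
  have hEle : |(E : ℝ)| ≤ D * (Real.exp (δ / 8 * n) * (q : ℝ) ^ b) := by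
    rw [hE]
    push_cast
    refine (Finset.abs_sum_le_sum_abs _ _).trans ?_
    refine (Finset.sum_le_card_nsmul _ _ (Real.exp (δ / 8 * n) * (q : ℝ) ^ b) (fun j _ => ?_)).trans
      (le_of_eq ?_)
    · rw [abs_mul]
      have h1 : |(lam j : ℝ)| ≤ Real.exp (δ / 8 * n) :=
        (hlam j).trans (Real.exp_le_exp.2 (mul_le_mul_of_nonneg_right (min_le_right _ _) hnR))
      have h2 : |(q : ℝ) ^ β j * (B j : ℝ)| ≤ (q : ℝ) ^ b := by
        rw [abs_of_nonneg (by positivity)]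
        have h3 : (B j : ℝ) ≤ (q : ℝ) ^ a j := by exact_mod_cast (hB j).le
        have h4 : (q : ℝ) ^ b = (q : ℝ) ^ β j * (q : ℝ) ^ a j := by
          rw [← pow_add, Nat.sub_add_cancel (hab j)]
        rw [h4]
        exact mul_le_mul_of_nonneg_left h3 (by positivity)
      exact mul_le_mul h1 h2 (abs_nonneg _) (Real.exp_pos _).le
    · rw [Finset.card_univ, Fintype.card_fin, nsmul_eq_mul]
  have hSle : |(S : ℝ)| ≤ (q : ℝ) ^ ℓ * Real.exp (-(δ * n)) := by
    have h1 : (S : ℝ) = ∑ j, (lam j : ℝ) * (block q (p ^ n) (a j) ℓ : ℝ) - z * (q : ℝ) ^ ℓ := by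
      rw [hS]; push_cast; rfl
    rw [h1]
    exact hcon
  have hqℓ : Real.exp (δ / 2 * n) ≤ (q : ℝ) ^ ℓ := by
    have e3 : (q : ℝ) ^ ℓ = Real.exp (ℓ * Real.log q) := by
      rw [Real.exp_nat_mul, Real.exp_log hq0]
    rw [e3]
    apply Real.exp_le_exp.2
    have h1 : 0 ≤ δ * n := by positivity
    nlinarith
  have hxle : |(x : ℝ)| ≤ (q : ℝ) ^ K * Real.exp (-(δ' * n)) := by
    have h1 : |(x : ℝ)| ≤ (q : ℝ) ^ b * |(S : ℝ)| + |(E : ℝ)| := by
      rw [hx]
      push_cast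
      rw [abs_neg]
      refine (abs_add_le _ _).trans ?_
      rw [abs_mul, abs_of_pos (by positivity : (0 : ℝ) < (q : ℝ) ^ b)]
    have hqb : (0 : ℝ) < (q : ℝ) ^ b := by positivity
    have hqKe : (q : ℝ) ^ K * q = (q : ℝ) ^ b * (q : ℝ) ^ ℓ := by
      rw [← pow_succ, ← pow_add]
      congr 1
      omega
    have h2 : (q : ℝ) ^ b * |(S : ℝ)| ≤ (q : ℝ) ^ b * (q : ℝ) ^ ℓ * Real.exp (-(δ / 4 * n)) := by
      rw [mul_assoc]
      apply mul_le_mul_of_nonneg_left _ hqb.le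
      refine hSle.trans ?_
      apply mul_le_mul_of_nonneg_left _ (by positivity)
      apply Real.exp_le_exp.2
      nlinarith
    have h3 : |(E : ℝ)| ≤ D * ((q : ℝ) ^ b * (q : ℝ) ^ ℓ * Real.exp (-(δ / 4 * n))) := by
      refine hEle.trans ?_
      apply mul_le_mul_of_nonneg_left _ hD0
      have h4 : Real.exp (δ / 8 * n) ≤ (q : ℝ) ^ ℓ * Real.exp (-(δ / 4 * n)) := by
        calc Real.exp (δ / 8 * n) ≤ Real.exp (δ / 2 * n + -(δ / 4 * n)) := by
              apply Real.exp_le_exp.2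
              nlinarith
          _ = Real.exp (δ / 2 * n) * Real.exp (-(δ / 4 * n)) := Real.exp_add _ _
          _ ≤ _ := mul_le_mul_of_nonneg_right hqℓ (Real.exp_pos _).le
      calc Real.exp (δ / 8 * n) * (q : ℝ) ^ b ≤
          (q : ℝ) ^ ℓ * Real.exp (-(δ / 4 * n)) * (q : ℝ) ^ b :=
            mul_le_mul_of_nonneg_right h4 hqb.le
        _ = _ := by ring
    have h5 : (q : ℝ) * (D + 1) ≤ Real.exp (δ / 8 * n) := by
      have h6 := Real.add_one_le_exp (δ / 8 * n)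
      linarith
    calc |(x : ℝ)| ≤ (D + 1) * ((q : ℝ) ^ b * (q : ℝ) ^ ℓ * Real.exp (-(δ / 4 * n))) := by
          linarith
      _ = (q : ℝ) ^ K * ((q : ℝ) * (D + 1) * Real.exp (-(δ / 4 * n))) := by rw [← hqKe]; ring
      _ ≤ (q : ℝ) ^ K * (Real.exp (δ / 8 * n) * Real.exp (-(δ / 4 * n))) := by
          apply mul_le_mul_of_nonneg_left _ (by positivity)
          exact mul_le_mul_of_nonneg_right h5 (Real.exp_pos _).le
      _ = (q : ℝ) ^ K * Real.exp (-(δ / 8 * n)) := by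
          rw [← Real.exp_add]; congr 2; ring
      _ ≤ (q : ℝ) ^ K * Real.exp (-(δ' * n)) := by
          apply mul_le_mul_of_nonneg_left _ (by positivity)
          apply Real.exp_le_exp.2
          nlinarith
  have hzero := hind n ((le_max_left _ _).trans hn) n K β hδn hδK hqKnR hβK lam
    (fun j => (hlam j).trans (Real.exp_le_exp.2 (mul_le_mul_of_nonneg_right (min_le_left _ _) hnR)))
    x hdvd hxle
  apply hne
  have hqbne : (q : ℝ) ^ b ≠ 0 := by positivity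
  have h1 : (q : ℝ) ^ b * ∑ j, (lam j : ℝ) / (q : ℝ) ^ a j = 0 := by
    rw [Finset.mul_sum]
    have h2 : ((∑ j, lam j * (q : ℤ) ^ β j : ℤ) : ℝ) = 0 := by rw [hzero]; simp
    rw [← h2]
    push_cast
    apply Finset.sum_congr rfl
    intro j _
    have h3 : (q : ℝ) ^ b = (q : ℝ) ^ β j * (q : ℝ) ^ a j := by
      rw [← pow_add, Nat.sub_add_cancel (hab j)]
    rw [h3]
    have : (q : ℝ) ^ a j ≠ 0 := by positivity
    field_simp
  rcases mul_eq_zero.1 h1 with h2 | h2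
  · exact absurd h2 hqbne
  · exact h2

/-- The case `D = 2`, `t = (1, -1)`: for all `δ > 0` and all large `n`, no block of `ℓ ≥ δ n`
consecutive digits occurs at two different positions in the base `q` expansion of `p ^ n`. -/
theorem distinct_blocks (p q : ℕ) (hp : p.Prime) (hq : q.Prime) (hpq : p ≠ q) (δ : ℝ) (hδ : 0 < δ) :
    ∃ n0 : ℕ, ∀ n : ℕ, n0 ≤ n → ∀ ℓ a b : ℕ, δ * n ≤ ℓ → a < b →
      b + ℓ ≤ Nat.log q (p ^ n) + 1 →
      ∃ i < ℓ, digit q (p ^ n) (a + i) ≠ digit q (p ^ n) (b + i) := by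
  obtain ⟨ε, hε, n0, h⟩ := result p q hp hq hpq 2 δ hδ
  refine ⟨n0, fun n hn ℓ a b hℓ hab hb => ?_⟩
  by_contra hcon
  push Not at hcon
  have hq0 : (0 : ℝ) < q := by exact_mod_cast hq.pos
  have hq1 : (1 : ℝ) < q := by exact_mod_cast hq.one_lt
  have hbl : block q (p ^ n) a ℓ = block q (p ^ n) b ℓ := by
    unfold block
    apply Finset.sum_congr rfl
    intro i hi
    rw [hcon i (Finset.mem_range.1 hi)]
  have h1 := h n hn ℓ ![a, b] ![1, -1] hℓ
    (by
      intro j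
      fin_cases j
      · show a + ℓ ≤ Nat.log q (p ^ n) + 1
        omega
      · exact hb)
    (by
      intro j
      have h2 : (1 : ℝ) ≤ Real.exp (ε * n) := Real.one_le_exp (by positivity)
      fin_cases j
      · simpa using h2
      · simpa using h2)
    (by
      rw [Fin.sum_univ_two]
      simp only [Matrix.cons_val_zero, Matrix.cons_val_one, Int.cast_one, Int.cast_neg]
      have h2 : (q : ℝ) ^ a < (q : ℝ) ^ b := pow_lt_pow_right₀ hq1 hab
      have h3 : (0 : ℝ) < (q : ℝ) ^ a := by positivity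
      have h4 : 1 / (q : ℝ) ^ b < 1 / (q : ℝ) ^ a := one_div_lt_one_div_of_lt h3 h2
      intro h5
      rw [neg_div] at h5
      linarith)
    0
  rw [Fin.sum_univ_two] at h1
  simp only [Matrix.cons_val_zero, Matrix.cons_val_one, Int.cast_one, Int.cast_neg, hbl,
    Int.cast_zero, zero_mul, sub_zero, one_mul, neg_one_mul] at h1
  rw [add_neg_cancel, abs_zero] at h1
  have h2 : 0 < (q : ℝ) ^ ℓ * Real.exp (-(δ * n)) := by positivity
  linarith

end Pool.Agent.Results.MP_b08cb4_nt.DistinctBlocks
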