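import Mathlib
import Pool.Agent.H46R3.DG.Final

set_option autoImplicit false

/-!
# The lowest `C log n` digits of powers of a prime

For distinct primes `p`, `q`, every `C` and every multiplier `z` prime to `q` (for instance a power
of `p`, that is, for `n` in an arbitrary interval of length `N`):

* the blocks of base-`q` digits of `z p ^ n` (`n < N`) in the places below `C log N`, beyond a
  bounded number of places, are equidistributed with a power saving error;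
* for all but `O(N ^ (1 - δ))` integers `n < N` every word `v` of length `L` occurs with frequency
  `q ^ (-L)` up to `ε` in the lowest `C log N` places of `z p ^ n`;
* for all but `O(N ^ (1 - δ))` integers `n < N` every digit occurs more than `C log N` times in the
  base-`q` expansion of `z p ^ n`.

All implied constants are uniform in `z`.
-/

namespace Pool.Agent.Results.MP_b08cb4_nt.LowDigitsPowerSaving

open Finset

theorem result (p q : ℕ) (hp : p.Prime) (hq : q.Prime) (hpq : p ≠ q) :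
    (∃ s : ℕ, ∀ C : ℝ, 0 < C → ∃ δ K : ℝ, 0 < δ ∧ ∀ N t l w z : ℕ, 1 ≤ N → s ≤ t →
      ((t + l : ℕ) : ℝ) ≤ C * Real.log N → w < q ^ l → ¬ q ∣ z →
      |((#{n ∈ range N | z * p ^ n / q ^ t % q ^ l = w} : ℕ) : ℝ) - (N : ℝ) / (q : ℝ) ^ l| ≤
        K * (N : ℝ) ^ (1 - δ)) ∧
    (∀ (C ε : ℝ) (L : ℕ), 0 < C → 0 < ε → 1 ≤ L → ∃ δ K : ℝ, 0 < δ ∧ ∀ N z : ℕ, 1 ≤ N → ¬ q ∣ z →
      ((#{n ∈ range N | ∃ v < q ^ L, ε * Real.log N <
        |((#{i ∈ range ⌊C * Real.log N⌋₊ | z * p ^ n / q ^ i % q ^ L = v} : ℕ) : ℝ) -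
          C * Real.log N / (q : ℝ) ^ L|} : ℕ) : ℝ) ≤ K * (N : ℝ) ^ (1 - δ)) ∧
    (∀ C : ℝ, 0 < C → ∃ δ K : ℝ, 0 < δ ∧ ∀ N z : ℕ, 1 ≤ N → ¬ q ∣ z →
      ((#{n ∈ range N | ∃ b < q,
        ((Nat.digits q (z * p ^ n)).count b : ℝ) ≤ C * Real.log N} : ℕ) : ℝ) ≤
        K * (N : ℝ) ^ (1 - δ)) := by
  obtain ⟨⟨s, h0⟩, h1, h2⟩ := H46R3.DG.final p q hp hq hpq
  refine ⟨⟨s, fun C hC => ?_⟩, fun C ε L hC hε hL => ?_, fun C hC => ?_⟩
  · obtain ⟨δ, K, hδ, -, h⟩ := h0 C hC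
    exact ⟨δ, K, hδ, h⟩
  · obtain ⟨δ, K, hδ, -, h⟩ := h1 C ε L hC hε hL
    exact ⟨δ, K, hδ, h⟩
  · obtain ⟨δ, K, hδ, -, h⟩ := h2 C hC
    exact ⟨δ, K, hδ, h⟩

end Pool.Agent.Results.MP_b08cb4_nt.LowDigitsPowerSaving
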