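import Mathlib
import Pool.Agent.H547R3.Sub.Growth4

/-! The base-`q` digits of the multiples `u p^n` of a power of a prime `p ≠ q`: the lowest `K` digits are not a
concatenation of `D` words each having a period at most `ε K`. -/

set_option autoImplicit false

namespace Pool.Agent.Results.MP_b08cb4_nt.SimpleDigitWords

/-- The word `w 0, …, w (K - 1)` is a concatenation of `D` words (some of them possibly empty), each of which has
a period `1 ≤ π ≤ ℓ`. -/
def Splits (w : ℕ → ℕ) (K : ℕ) (ℓ : ℝ) (D : ℕ) : Prop :=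
  ∃ c : ℕ → ℕ, c 0 = 0 ∧ c D = K ∧ (∀ i < D, c i ≤ c (i + 1)) ∧
    ∀ i < D, ∃ π : ℕ, 1 ≤ π ∧ (π : ℝ) ≤ ℓ ∧ ∀ j, c i ≤ j → j + π < c (i + 1) → w (j + π) = w j

/-- the `i`-th digit of `m` in base `q` (the coefficient of `q ^ i`) -/
def digit (q m i : ℕ) : ℕ := m / q ^ i % q

/-- the sequence: first `n` steps from `u q^n` to `u p^n`, then the integers `⌊u p^n / q^i⌋` -/
def y (p q u n : ℕ) (j : ℕ) : ℤ :=
  if j < n then (u : ℤ) * q ^ (n - j) * p ^ j else ((u * p ^ n / q ^ (j - n) : ℕ) : ℤ)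

theorem y_rec_lt {p q u n j : ℕ} (h : j < n) : (q : ℤ) * y p q u n (j + 1) = (p : ℤ) ^ 1 * y p q u n j + 0 := by
  unfold y
  rw [if_pos h]
  rcases Nat.lt_or_ge (j + 1) n with h1 | h1
  · rw [if_pos h1]
    have h2 : n - j = (n - (j + 1)) + 1 := by omega
    rw [h2]
    ring
  · have h2 : n = j + 1 := by omega
    subst h2
    rw [if_neg (by omega)]
    have h3 : j + 1 - j = 1 := by omega
    rw [h3]
    simp only [Nat.sub_self, pow_zero, Nat.div_one]
    push_cast
    ring

theorem y_rec_ge {p q u n j : ℕ} (h : n ≤ j) :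
    (q : ℤ) * y p q u n (j + 1) = (p : ℤ) ^ 0 * y p q u n j + -(digit q (u * p ^ n) (j - n) : ℤ) := by
  unfold y digit
  rw [if_neg (by omega), if_neg (by omega)]
  have h2 : j + 1 - n = (j - n) + 1 := by omega
  rw [h2, pow_succ, ← Nat.div_div_eq_div_mul]
  set a := u * p ^ n / q ^ (j - n)
  have h3 := Nat.div_add_mod a q
  have h4 : (q : ℤ) * ((a / q : ℕ) : ℤ) + ((a % q : ℕ) : ℤ) = a := by exact_mod_cast h3
  linarith

theorem pow_ne {p q : ℕ} (hp : p.Prime) (hq : q.Prime) (hpq : p ≠ q) {k l : ℕ} (hk : 1 ≤ k) : p ^ k ≠ q ^ l := by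
  intro h
  have h1 : p ∣ q ^ l := by
    rw [← h]
    exact dvd_pow_self p (by omega)
  exact hpq ((Nat.prime_dvd_prime_iff_eq hp hq).1 (hp.dvd_of_dvd_pow h1))

/-- the three cases of a repetition -/
theorem no_repeat {p q u n K ℓ : ℕ} (hp : p.Prime) (hq : q.Prime) (hpq : p ≠ q) (hu : 1 ≤ u)
    (hK : q ^ (K - 1) ≤ u * p ^ n) (hℓ : (p * q) ^ ℓ ≤ q ^ (K - 1)) {j π : ℕ} (hπ : 1 ≤ π) (hπℓ : π ≤ ℓ)
    (hj : j + π ≤ n + K) (h : y p q u n (j + π) = y p q u n j) : False := by
  have hp0 : 0 < p := hp.pos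
  have hq0 : 0 < q := hq.pos
  have hu0 : (0 : ℤ) < u := by exact_mod_cast hu
  unfold y at h
  rcases Nat.lt_or_ge (j + π) n with h1 | h1
  · -- both in the first part
    rw [if_pos h1, if_pos (by omega)] at h
    have h2 : n - j = (n - (j + π)) + π := by omega
    rw [h2] at h
    have h3 : (u : ℤ) * q ^ (n - (j + π)) * p ^ j * (p : ℤ) ^ π = (u : ℤ) * q ^ (n - (j + π)) * p ^ j * (q : ℤ) ^ π := by
      rw [pow_add, pow_add] at h
      linarith
    have h4 : (u : ℤ) * q ^ (n - (j + π)) * p ^ j ≠ 0 := by positivity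
    have h5 := mul_left_cancel₀ h4 h3
    have h6 : p ^ π = q ^ π := by exact_mod_cast h5
    exact pow_ne hp hq hpq hπ h6
  · rcases Nat.lt_or_ge j n with h2 | h2
    · -- the repetition crosses the end of the first part
      rw [if_neg (by omega), if_pos h2] at h
      have h3 : u * p ^ n / q ^ (j + π - n) = u * q ^ (n - j) * p ^ j := by exact_mod_cast h
      set i := j + π - n with hi
      set k := n - j with hk
      have hk1 : 1 ≤ k := by omega
      have hn : n = j + k := by omega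
      have hqi : 0 < q ^ i := by positivity
      have h4 := Nat.div_mul_le_self (u * p ^ n) (q ^ i)
      have h5 := Nat.lt_div_mul_add (a := u * p ^ n) hqi
      rw [h3] at h4 h5
      have h6 : u * p ^ n = u * p ^ j * p ^ k := by rw [hn, pow_add]; ring
      have h7 : u * q ^ k * p ^ j * q ^ i = u * p ^ j * q ^ (k + i) := by rw [pow_add]; ring
      rw [h6, h7] at h4
      rw [h6, h7] at h5
      have hup : 0 < u * p ^ j := by positivity
      have h8 : q ^ (k + i) ≤ p ^ k := le_of_mul_le_mul_left h4 hup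
      have h9 : q ^ (k + i) < p ^ k := lt_of_le_of_ne h8 fun h => pow_ne hp hq hpq hk1 h.symm
      have h10 : u * p ^ j * (q ^ (k + i) + 1) ≤ u * p ^ j * p ^ k := Nat.mul_le_mul_left _ h9
      have h11 : u * p ^ j < q ^ i := by
        have : u * p ^ j * (q ^ (k + i) + 1) < u * p ^ j * q ^ (k + i) + q ^ i := lt_of_le_of_lt h10 h5
        linarith
      have h12 : u * p ^ n < (p * q) ^ ℓ := by
        calc u * p ^ n = u * p ^ j * p ^ k := h6
          _ < q ^ i * p ^ k := Nat.mul_lt_mul_of_pos_right h11 (by positivity)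
          _ ≤ q ^ ℓ * p ^ ℓ := Nat.mul_le_mul (Nat.pow_le_pow_right hq0 (by omega)) (Nat.pow_le_pow_right hp0 (by omega))
          _ = (p * q) ^ ℓ := by rw [mul_pow]; ring
      omega
    · -- both among the digits
      rw [if_neg (by omega), if_neg (by omega)] at h
      have h3 : u * p ^ n / q ^ (j + π - n) = u * p ^ n / q ^ (j - n) := by exact_mod_cast h
      have h4 : j + π - n = (j - n) + π := by omega
      rw [h4, pow_add, ← Nat.div_div_eq_div_mul] at h3
      set a := u * p ^ n / q ^ (j - n) with ha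
      have h5 : a = 0 := by
        by_contra h0
        have h6 : a / q ^ π < a := Nat.div_lt_self (Nat.pos_of_ne_zero h0) (Nat.one_lt_pow (by omega) hq.one_lt)
        omega
      have h6 : u * p ^ n < q ^ (j - n) := by
        rcases (Nat.div_eq_zero_iff).1 h5 with h7 | h7
        · exact absurd h7 (by positivity)
        · exact h7
      have h7 : q ^ (j - n) ≤ q ^ (K - 1) := Nat.pow_le_pow_right hq0 (by omega)
      omega

/-- **Theorem.** Let `p ≠ q` be primes. For all `D` and `η > 0` there are `ε > 0` and `K₀` such that for all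
`K ≥ K₀` and all positive integers `u p^n` with `u ≤ q^((1 - η) K)` and `n ≤ K / η` which have at least `K`
base-`q` digits, the lowest `K` digits are not a concatenation of `D` words each having a period at most `ε K`. -/
theorem result (p q : ℕ) (hp : p.Prime) (hq : q.Prime) (hpq : p ≠ q) (D : ℕ) (η : ℝ) (hη : 0 < η) :
    ∃ ε : ℝ, 0 < ε ∧ ∃ K₀ : ℕ, ∀ K : ℕ, K₀ ≤ K → ∀ n u : ℕ, 1 ≤ u → (u : ℝ) ≤ (q : ℝ) ^ ((1 - η) * K) →
      (n : ℝ) ≤ K / η → q ^ (K - 1) ≤ u * p ^ n →
      ¬ Splits (digit q (u * p ^ n)) K (ε * K) D := by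
  have hpF : Fact p.Prime := ⟨hp⟩
  have hqF : Fact q.Prime := ⟨hq⟩
  have hp1 : (1 : ℝ) < p := by exact_mod_cast hp.one_lt
  have hq1 : (1 : ℝ) < q := by exact_mod_cast hq.one_lt
  have hq0 : (0 : ℝ) < q := by linarith
  have hp0 : (0 : ℝ) < p := by linarith
  set lq := Real.log q with hlq
  set lp := Real.log p with hlp
  have hlq0 : 0 < lq := Real.log_pos hq1
  have hlp0 : 0 < lp := Real.log_pos hp1
  set η' : ℝ := η * lq / (1 / η + 1) with hη'
  have hη'0 : 0 < η' := by positivity
  obtain ⟨ε', hε', M0, hM⟩ := Pool.Agent.H547R3.Sub.growth2 (p := q) (q := p) (Ne.symm hpq) 1 (D + 1) η' hη'0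
  set ε : ℝ := min ε' (lq / (2 * (lp + lq))) with hε
  have hε0 : 0 < ε := lt_min hε' (by positivity)
  have hεε' : ε ≤ ε' := min_le_left _ _
  have hε2 : ε ≤ lq / (2 * (lp + lq)) := min_le_right _ _
  obtain ⟨K1, hK1⟩ := exists_nat_ge (1 / ε)
  obtain ⟨K2, hK2⟩ := exists_nat_ge (lq / ε')
  refine ⟨ε, hε0, M0 + K1 + K2 + 2, fun K hK n u hu huK hn hdig hS => ?_⟩
  have hKR : (M0 : ℝ) + K1 + K2 + 2 ≤ K := by exact_mod_cast hK
  have hM0 : (0 : ℝ) ≤ M0 := Nat.cast_nonneg _
  have hK10 : (0 : ℝ) ≤ K1 := Nat.cast_nonneg _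
  have hK20 : (0 : ℝ) ≤ K2 := Nat.cast_nonneg _
  have hn0 : (0 : ℝ) ≤ n := Nat.cast_nonneg _
  have hεK : 1 ≤ ε * K := by
    have h1 : 1 / ε ≤ K := by linarith
    rw [div_le_iff₀ hε0] at h1
    linarith
  set ℓ : ℕ := ⌊ε * K⌋₊ with hℓ
  have hℓ1 : 1 ≤ ℓ := Nat.le_floor (by exact_mod_cast hεK)
  have hℓle : (ℓ : ℝ) ≤ ε * K := Nat.floor_le (by positivity)
  obtain ⟨c, hc0, hcD, hcm, hcp⟩ := hS
  set M := n + K with hMdef
  have hMR : (M : ℝ) = n + K := by rw [hMdef]; push_cast; ring
  let t : ℕ → ℕ := fun i => Nat.casesOn i 0 (fun i => n + c i)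
  have ht0 : t 0 = 0 := rfl
  have ht1 : ∀ i, t (i + 1) = n + c i := fun _ => rfl
  let e : ℕ → ℕ := fun j => if j < n then 1 else 0
  let r : ℕ → ℤ := fun j => if j < n then 0 else -(digit q (u * p ^ n) (j - n) : ℤ)
  have hmain := hM M (by omega) ℓ (by
      rw [hMR]
      calc (ℓ : ℝ) ≤ ε * K := hℓle
        _ ≤ ε' * (n + K) := by
            apply mul_le_mul hεε' (by linarith) (by linarith) hε'.le)
    (y p q u n) e r t (by rw [ht1, ht0, hcD]; omega) ?_ ?_ ?_ ?_
  · obtain ⟨j, π, -, hπ1, hπ2, hjπ, hy⟩ := hmain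
    rw [ht1, hcD] at hjπ
    refine no_repeat hp hq hpq hu hdig ?_ hπ1 hπ2 hjπ hy
    have h1 : ((p * q : ℕ) : ℝ) ^ ℓ ≤ (q : ℝ) ^ (K - 1) := by
      rw [← Real.exp_log (show (0 : ℝ) < ((p * q : ℕ) : ℝ) ^ ℓ by push_cast; positivity),
        ← Real.exp_log (show (0 : ℝ) < (q : ℝ) ^ (K - 1) by positivity)]
      apply Real.exp_le_exp.2
      rw [Real.log_pow, Real.log_pow]
      push_cast
      rw [Real.log_mul hp0.ne' hq0.ne', ← hlp, ← hlq, Nat.cast_sub (by omega)]
      have h2 : (ℓ : ℝ) * (lp + lq) ≤ K * lq / 2 := by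
        calc (ℓ : ℝ) * (lp + lq) ≤ (lq / (2 * (lp + lq)) * K) * (lp + lq) := by
              apply mul_le_mul_of_nonneg_right _ (by positivity)
              exact hℓle.trans (mul_le_mul_of_nonneg_right hε2 (by linarith))
          _ = K * lq / 2 := by
              have h4 : lp + lq ≠ 0 := by positivity
              field_simp
      have h3 : K * lq / 2 ≤ ((K : ℝ) - ((1 : ℕ) : ℝ)) * lq := by
        rw [Nat.cast_one]
        have hlq0' : 0 < lq := by assumption
        have hK2' : (2 : ℝ) ≤ K := by linarith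
        nlinarith
      exact h2.trans h3
    exact_mod_cast h1
  · -- monotone
    intro i hi
    rcases i with _ | i
    · rw [ht0]; omega
    · rw [ht1, ht1]
      have := hcm i (by omega)
      omega
  · -- recurrence
    intro j _ _
    by_cases hjn : j < n
    · refine ⟨?_, ?_, ?_⟩
      · simp only [e, r, if_pos hjn]
        exact y_rec_lt hjn
      · simp only [e, if_pos hjn]; exact le_rfl
      · simp only [r, if_pos hjn, Int.cast_zero, abs_zero]
        positivity
    · refine ⟨?_, ?_, ?_⟩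
      · simp only [e, r, if_neg hjn]
        exact y_rec_ge (by omega)
      · simp only [e, if_neg hjn]; omega
      · simp only [r, if_neg hjn]
        have h1 : digit q (u * p ^ n) (j - n) < q := Nat.mod_lt _ hq.pos
        have h2 : (digit q (u * p ^ n) (j - n) : ℝ) ≤ q := by exact_mod_cast h1.le
        push_cast
        rw [abs_neg, Nat.abs_cast]
        refine h2.trans ?_
        rw [← Real.log_le_iff_le_exp hq0, ← hlq]
        have h3 : lq / ε' ≤ M := by rw [hMR]; linarith
        rw [div_le_iff₀ hε'] at h3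
        linarith
  · -- periods
    intro i hi
    rcases i with _ | i
    · refine ⟨1, le_rfl, hℓ1, fun j _ hj => ?_⟩
      rw [ht1, hc0] at hj
      simp only [e, r]
      rw [if_pos (by omega), if_pos (by omega), if_pos (by omega), if_pos (by omega)]
      exact ⟨rfl, rfl⟩
    · obtain ⟨π, hπ1, hπ2, hπ3⟩ := hcp i (by omega)
      refine ⟨π, hπ1, Nat.le_floor hπ2, fun j hj1 hj2 => ?_⟩
      rw [ht1] at hj1 hj2
      have h1 := hπ3 (j - n) (by omega) (by omega)
      simp only [e, r]
      rw [if_neg (by omega), if_neg (by omega), if_neg (by omega), if_neg (by omega)]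
      refine ⟨rfl, ?_⟩
      have h2 : j + π - n = j - n + π := by omega
      rw [h2, h1]
  · -- size
    rw [ht0]
    have h1 : (y p q u n 0 : ℝ) = u * (q : ℝ) ^ n := by
      unfold y
      rcases Nat.eq_zero_or_pos n with rfl | hn1
      · simp
      · rw [if_pos hn1]
        push_cast
        simp
    rw [h1, abs_of_nonneg (by positivity)]
    have h2 : (n + K : ℝ) * η' ≤ η * lq * K := by
      have h3 : (n + K : ℝ) ≤ (1 / η + 1) * K := by
        have : (K : ℝ) / η = 1 / η * K := by ring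
        linarith
      calc (n + K : ℝ) * η' ≤ ((1 / η + 1) * K) * η' := by gcongr
        _ = η * lq * K := by
            rw [hη']
            field_simp
    calc (u : ℝ) * (q : ℝ) ^ n ≤ (q : ℝ) ^ ((1 - η) * K) * (q : ℝ) ^ n := by gcongr
      _ = Real.exp (((1 - η) * K + n) * lq) := by
          rw [← Real.rpow_natCast q n, ← Real.rpow_add hq0, Real.rpow_def_of_pos hq0, ← hlq]
          congr 1
          ring
      _ ≤ Real.exp (M * lq + -(η' * M)) := by
          apply Real.exp_le_exp.2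
          rw [hMR]
          nlinarith
      _ = (q : ℝ) ^ M * Real.exp (-(η' * M)) := by
          rw [Real.exp_add, Real.exp_nat_mul, hlq, Real.exp_log hq0]

end Pool.Agent.Results.MP_b08cb4_nt.SimpleDigitWords
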